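import Pool.Agent.W360.MQ.Stm

/-! MQ-DISC: approximation of a rank-one convex function `α(|A|) + β(|A|) det A` by pieces. -/

set_option autoImplicit false

namespace Pool.Agent.W809.MQ.Disc

open Pool.Agent.W360.MQ Set Filter Topology

/-- slopes -/
noncomputable def sl (f : ℝ → ℝ) (x y : ℝ) : ℝ := (f y - f x) / (y - x)

lemma key {α β : ℝ → ℝ} (h : RC α β) {x y z : ℝ} (hx : 0 < x) (hxy : x < y) (hyz : y < z) :
    x * |sl (fun s => s * β s) y z - sl (fun s => s * β s) x y| ≤ sl α y z - sl α x y := by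
  have hy : 0 < y := hx.trans hxy
  have hz : 0 < z := hy.trans hyz
  have m : ∀ t, x ≤ t → max |t| |x| = t := fun t ht => by
    rw [abs_of_pos hx, abs_of_pos (hx.trans_le ht)]; exact max_eq_left ht
  have m' : ∀ t, x ≤ t → max |t| |-x| = t := fun t ht => by rw [abs_neg]; exact m t ht
  have h1 := (h x).slope_mono_adjacent (mem_univ x) (mem_univ z) hxy hyz
  have h2 := (h (-x)).slope_mono_adjacent (mem_univ x) (mem_univ z) hxy hyz
  simp only [m x le_rfl, m y hxy.le, m z (hxy.trans hyz).le] at h1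
  simp only [m' x le_rfl, m' y hxy.le, m' z (hxy.trans hyz).le] at h2
  have e1 : (α y + β y * (y * x) - (α x + β x * (x * x))) / (y - x)
      = sl α x y + x * sl (fun s => s * β s) x y := by unfold sl; ring
  have e2 : (α z + β z * (z * x) - (α y + β y * (y * x))) / (z - y)
      = sl α y z + x * sl (fun s => s * β s) y z := by unfold sl; ring
  have e3 : (α y + β y * (y * -x) - (α x + β x * (x * -x))) / (y - x)
      = sl α x y - x * sl (fun s => s * β s) x y := by unfold sl; ring
  have e4 : (α z + β z * (z * -x) - (α y + β y * (y * -x))) / (z - y)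
      = sl α y z - x * sl (fun s => s * β s) y z := by unfold sl; ring
  rw [e1, e2] at h1
  rw [e3, e4] at h2
  rw [← abs_of_pos hx, ← abs_mul, abs_of_pos hx, abs_le]
  constructor <;> linarith

lemma key0 {α β : ℝ → ℝ} (h : RC α β) {x y : ℝ} (hx : 0 < x) (hxy : x < y) :
    |x * β x - x * sl (fun s => s * β s) x y| ≤ sl α x y := by
  have m : ∀ t, x ≤ t → max |t| |x| = t := fun t ht => by
    rw [abs_of_pos hx, abs_of_pos (hx.trans_le ht)]; exact max_eq_left ht
  have m' : ∀ t, x ≤ t → max |t| |-x| = t := fun t ht => by rw [abs_neg]; exact m t ht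
  have m0 : max |(0 : ℝ)| |x| = x := by rw [abs_zero, abs_of_pos hx]; exact max_eq_right hx.le
  have m0' : max |(0 : ℝ)| |-x| = x := by rw [abs_neg]; exact m0
  have h1 := (h x).slope_mono_adjacent (mem_univ 0) (mem_univ y) hx hxy
  have h2 := (h (-x)).slope_mono_adjacent (mem_univ 0) (mem_univ y) hx hxy
  simp only [m x le_rfl, m y hxy.le, m0] at h1
  simp only [m' x le_rfl, m' y hxy.le, m0'] at h2
  have e1 : (α x + β x * (x * x) - (α x + β x * (0 * x))) / (x - 0) = x * β x := by
    rw [sub_zero, div_eq_iff hx.ne']; ring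
  have e2 : (α y + β y * (y * x) - (α x + β x * (x * x))) / (y - x)
      = sl α x y + x * sl (fun s => s * β s) x y := by unfold sl; ring
  have e3 : (α x + β x * (x * -x) - (α x + β x * (0 * -x))) / (x - 0) = -(x * β x) := by
    rw [sub_zero, div_eq_iff hx.ne']; ring
  have e4 : (α y + β y * (y * -x) - (α x + β x * (x * -x))) / (y - x)
      = sl α x y - x * sl (fun s => s * β s) x y := by unfold sl; ring
  rw [e1, e2] at h1
  rw [e3, e4] at h2
  rw [abs_le]
  constructor <;> linarith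

/-- the telescoping sum of a piecewise linear function -/
lemma tele (a ρ : ℕ → ℝ) (f : ℕ → ℝ) (hf : ∀ i, f i * (ρ (i + 1) - ρ i) = a (i + 1) - a i)
    (s : ℝ) (j : ℕ) :
    a 0 + f 0 * (s - ρ 0) + ∑ i ∈ Finset.range j, (f (i + 1) - f i) * (s - ρ (i + 1))
      = a j + f j * (s - ρ j) := by
  induction j with
  | zero => simp
  | succ j ih =>
    rw [Finset.sum_range_succ, ← add_assoc, ih]
    have := hf j
    linear_combination this

lemma tele' (a ρ : ℕ → ℝ) (hρ : StrictMono ρ) (f : ℕ → ℝ)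
    (hf : ∀ i, f i * (ρ (i + 1) - ρ i) = a (i + 1) - a i)
    (s : ℝ) (j N : ℕ) (hj : j ≤ N) (h1 : ρ j ≤ s) (h2 : s ≤ ρ (j + 1)) :
    a 0 + f 0 * (s - ρ 0) + ∑ i ∈ Finset.range N, (f (i + 1) - f i) * max (s - ρ (i + 1)) 0
      = a j + f j * (s - ρ j) := by
  rw [← tele a ρ f hf s j]
  congr 1
  rw [← Finset.sum_subset (Finset.range_subset_range.2 hj)]
  · refine Finset.sum_congr rfl fun i hi => ?_
    have hi' : i + 1 ≤ j := Finset.mem_range.1 hi
    rw [max_eq_left]
    have := hρ.monotone hi'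
    linarith
  · intro i _ hi
    have hi' : j + 1 ≤ i + 1 := by
      have := Finset.mem_range.not.1 hi
      omega
    rw [max_eq_right, mul_zero]
    have := hρ.monotone hi'
    linarith

lemma tele0 (f ρ : ℕ → ℝ) (hρ : StrictMono ρ) (s : ℝ) (N : ℕ) (h : s ≤ ρ 0) :
    ∑ i ∈ Finset.range N, f i * max (s - ρ (i + 1)) 0 = 0 := by
  refine Finset.sum_eq_zero fun i _ => ?_
  rw [max_eq_right, mul_zero]
  have := hρ.monotone (Nat.zero_le (i + 1))
  linarith

lemma comb {a b y s x z E : ℝ} {f : ℝ} (hf : f * (z - x) = b - a) (hxz : x < z)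
    (h1 : x ≤ s) (h2 : s ≤ z) (ha : |a - y| ≤ E) (hb : |b - y| ≤ E) :
    |a + f * (s - x) - y| ≤ E := by
  have hd : 0 < z - x := by linarith
  have hl : f * (s - x) = (s - x) / (z - x) * (b - a) := by
    rw [← hf]; field_simp
  have l0 : 0 ≤ (s - x) / (z - x) := div_nonneg (by linarith) hd.le
  have l1 : (s - x) / (z - x) ≤ 1 := (div_le_one hd).2 (by linarith)
  rw [hl]
  set l := (s - x) / (z - x)
  rw [abs_le] at *
  constructor <;> nlinarith

lemma find (ρ : ℕ → ℝ) (s : ℝ) (N : ℕ) (h0 : ρ 0 ≤ s) (h1 : s ≤ ρ (N + 1)) :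
    ∃ j ≤ N, ρ j ≤ s ∧ s ≤ ρ (j + 1) := by
  induction N with
  | zero => exact ⟨0, le_rfl, h0, h1⟩
  | succ N ih =>
    by_cases h : s ≤ ρ (N + 1)
    · obtain ⟨j, hj, h2⟩ := ih h
      exact ⟨j, by omega, h2⟩
    · exact ⟨N + 1, le_rfl, (not_le.1 h).le, h1⟩

lemma pc_eq (N : ℕ) (ρ G H : ℕ → ℝ) (q c0 s0 t0 d x y : ℝ) (hρ : ∀ i, 0 < ρ i) :
    pc N ρ (fun i => 2 * ρ i * max (H i) 0) (fun i => 2 * ρ i * max (-H i) 0)
      (fun i => q * G i - ρ i * |H i|) (s0 - |c0|) (2 * max c0 0) (2 * max (-c0) 0) t0 d x y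
    = (d + s0 * (x + y) + q * ∑ i ∈ Finset.range N, G i * max (x + y - ρ i) 0)
      + (x - y) * (c0 + t0 * (x + y) + ∑ i ∈ Finset.range N, H i * max (x + y - ρ i) 0) := by
  have p1 : ∀ u : ℝ, max u 0 + max (-u) 0 = |u| := fun u => by
    rcases le_total 0 u with h | h
    · rw [max_eq_left h, max_eq_right (by linarith), abs_of_nonneg h, add_zero]
    · rw [max_eq_right h, max_eq_left (by linarith), abs_of_nonpos h, zero_add]
  have p2 : ∀ u : ℝ, max u 0 - max (-u) 0 = u := fun u => by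
    rcases le_total 0 u with h | h
    · rw [max_eq_left h, max_eq_right (by linarith), sub_zero]
    · rw [max_eq_right h, max_eq_left (by linarith)]; ring
  unfold pc
  have hs : ∑ i ∈ Finset.range N, (2 * ρ i * max (H i) 0 * Kr (ρ i) x y
      + 2 * ρ i * max (-H i) 0 * Kr (ρ i) y x + (q * G i - ρ i * |H i|) * max (x + y - ρ i) 0)
      = q * ∑ i ∈ Finset.range N, G i * max (x + y - ρ i) 0
        + (x - y) * ∑ i ∈ Finset.range N, H i * max (x + y - ρ i) 0 := by
    rw [Finset.mul_sum, Finset.mul_sum, ← Finset.sum_add_distrib]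
    refine Finset.sum_congr rfl fun i _ => ?_
    have hr := (hρ i).ne'
    have e1 : ρ i * Kr (ρ i) x y = ((x - y) + ρ i) * max (x + y - ρ i) 0 / 2 := by
      unfold Kr; field_simp
    have e2 : ρ i * Kr (ρ i) y x = ((y - x) + ρ i) * max (x + y - ρ i) 0 / 2 := by
      unfold Kr; rw [add_comm y x]; field_simp
    have := p1 (H i)
    have := p2 (H i)
    calc _ = 2 * max (H i) 0 * (ρ i * Kr (ρ i) x y) + 2 * max (-H i) 0 * (ρ i * Kr (ρ i) y x)
          + (q * G i - ρ i * |H i|) * max (x + y - ρ i) 0 := by ring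
      _ = q * G i * max (x + y - ρ i) 0 + (x - y) * (max (H i) 0 - max (-H i) 0)
            * max (x + y - ρ i) 0
          + ρ i * ((max (H i) 0 + max (-H i) 0) - |H i|) * max (x + y - ρ i) 0 := by
          rw [e1, e2]; ring
      _ = _ := by rw [p1, p2]; ring
  have hc : 2 * max c0 0 * x + 2 * max (-c0) 0 * y
      = |c0| * (x + y) + c0 * (x - y) := by
    calc _ = (max c0 0 + max (-c0) 0) * (x + y) + (max c0 0 - max (-c0) 0) * (x - y) := by ring
      _ = _ := by rw [p1, p2]
  simp only [] at *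
  calc _ = d + (s0 - |c0|) * (x + y) + (2 * max c0 0 * x + 2 * max (-c0) 0 * y)
        + t0 * (x ^ 2 - y ^ 2) + (q * ∑ i ∈ Finset.range N, G i * max (x + y - ρ i) 0
        + (x - y) * ∑ i ∈ Finset.range N, H i * max (x + y - ρ i) 0) := by
        rw [← hs]; ring
    _ = _ := by rw [hc]; ring

lemma cvx {α β : ℝ → ℝ} (h : RC α β) : ConvexOn ℝ univ (fun t : ℝ => α |t|) := by
  have := h 0
  simpa using this

/-- the main estimate on a geometric grid -/
lemma grid {α β : ℝ → ℝ} (h : RC α β) {R e δ q M K ρ0 : ℝ} (N : ℕ) (hR : 0 < R) (he : 0 < e)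
    (hq : 1 < q) (hρ0 : 0 < ρ0) (hN : ρ0 * q ^ (N + 1) = R)
    (hM : M = sl α R (2 * R)) (hM0 : 0 ≤ M)
    (hα : ∀ s ∈ Icc 0 R, ∀ t ∈ Icc 0 R, |s - t| < δ → |α s - α t| ≤ e)
    (hk : ∀ s ∈ Icc 0 R, ∀ t ∈ Icc 0 R, |s - t| < δ → |s ^ 2 * β s - t ^ 2 * β t| ≤ e)
    (hK : ∀ s ∈ Icc 0 R, |s ^ 2 * β s| ≤ K)
    (q1 : (q - 1) * R < δ) (q2 : (q - 1) * R * M ≤ e) (q3 : (q - 1) * K ≤ e)
    (r1 : ρ0 < δ) (r2 : ρ0 * M ≤ e) :
    ∃ (N : ℕ) (r p q m : ℕ → ℝ) (A B C c d : ℝ),
    (∀ i, 0 < r i ∧ 0 ≤ p i ∧ 0 ≤ q i ∧ 0 ≤ m i) ∧ 0 ≤ A ∧ 0 ≤ B ∧ 0 ≤ C ∧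
    ∀ x y : ℝ, 0 ≤ x → 0 ≤ y → x + y ≤ R →
      |α (x + y) + β (x + y) * (x ^ 2 - y ^ 2) - pc N r p q m A B C c d x y| ≤ 5 * e := by
  set ρ : ℕ → ℝ := fun i => ρ0 * q ^ i with hρ
  set b : ℝ → ℝ := fun s => s * β s with hb
  have q0 : 0 < q := by linarith
  have ρpos : ∀ i, 0 < ρ i := fun i => by positivity
  have ρs : ∀ i, ρ (i + 1) = q * ρ i := fun i => by simp only [hρ]; ring
  have ρmono : StrictMono ρ := strictMono_nat_of_lt_succ fun i => by
    rw [ρs]; nlinarith [ρpos i]
  have ρlt : ∀ i, ρ i < ρ (i + 1) := fun i => ρmono (Nat.lt_succ_self i)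
  have ρN : ρ (N + 1) = R := hN
  set f : ℕ → ℝ := fun i => sl α (ρ i) (ρ (i + 1)) with hf
  set t : ℕ → ℝ := fun i => sl b (ρ i) (ρ (i + 1)) with ht
  have hfe : ∀ i, f i * (ρ (i + 1) - ρ i) = α (ρ (i + 1)) - α (ρ i) := fun i => by
    simp only [hf, sl]; exact div_mul_cancel₀ _ (by linarith [ρlt i])
  have hte : ∀ i, t i * (ρ (i + 1) - ρ i) = b (ρ (i + 1)) - b (ρ i) := fun i => by
    simp only [ht, sl]; exact div_mul_cancel₀ _ (by linarith [ρlt i])
  set G : ℕ → ℝ := fun i => f (i + 1) - f i with hG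
  set H : ℕ → ℝ := fun i => t (i + 1) - t i with hH
  have GH : ∀ i, ρ i * |H i| ≤ G i := fun i => key h (ρpos i) (ρlt i) (ρlt (i + 1))
  have G0 : ∀ i, 0 ≤ G i := fun i => (mul_nonneg (ρpos i).le (abs_nonneg _)).trans (GH i)
  have fmono : Monotone f := monotone_nat_of_le_succ fun i => by
    have := G0 i
    simp only [hG] at this
    linarith
  set c0 : ℝ := b (ρ 0) - ρ 0 * t 0 with hc0
  have c0f : |c0| ≤ f 0 := key0 h (ρpos 0) (ρlt 0)
  have f0 : 0 ≤ f 0 := (abs_nonneg _).trans c0f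
  have fN : f N ≤ M := by
    have hR2 : R < 2 * R := by linarith
    have := (cvx h).slope_mono_adjacent (mem_univ (ρ N)) (mem_univ (2 * R))
      (by rw [← ρN]; exact ρlt N) hR2
    simp only [abs_of_pos (ρpos N), abs_of_pos hR, abs_of_pos (hR.trans hR2)] at this
    rw [hM]
    simp only [hf, sl, ρN]
    exact this
  have f0M : f 0 ≤ M := (fmono (Nat.zero_le N)).trans fN
  have ρR : ∀ i ≤ N + 1, ρ i ≤ R := fun i hi => by rw [← ρN]; exact ρmono.monotone hi
  have ρmem : ∀ i ≤ N + 1, ρ i ∈ Icc 0 R := fun i hi => ⟨(ρpos i).le, ρR i hi⟩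
  have kR : 0 ≤ K := (abs_nonneg _).trans (hK R ⟨hR.le, le_rfl⟩)
  have k0 : ∀ s, 0 ≤ s → s ≤ ρ0 → |s ^ 2 * β s| ≤ e := fun s h1 h2 => by
    have h3 : ρ0 ≤ R := by simpa [hρ] using ρR 0 (by omega)
    have := hk s ⟨h1, h2.trans h3⟩ 0 ⟨le_rfl, hR.le⟩ (by rw [sub_zero, abs_of_nonneg h1]; linarith)
    simpa using this
  have ρ00 : ρ 0 = ρ0 := by simp [hρ]
  refine ⟨N, fun i => ρ (i + 1), fun i => 2 * ρ (i + 1) * max (H i) 0,
    fun i => 2 * ρ (i + 1) * max (-H i) 0, fun i => q * G i - ρ (i + 1) * |H i|, f 0 - |c0|,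
    2 * max c0 0, 2 * max (-c0) 0, t 0, α (ρ 0) - f 0 * ρ 0, ?_, by linarith, by positivity,
    by positivity, ?_⟩
  · intro i
    refine ⟨ρpos _, ?_, ?_, ?_⟩
    · have := ρpos (i + 1)
      positivity
    · have := ρpos (i + 1)
      positivity
    · have h1 := GH i
      have h2 : ρ (i + 1) * |H i| = q * (ρ i * |H i|) := by rw [ρs]; ring
      have : q * (ρ i * |H i|) ≤ q * G i := mul_le_mul_of_nonneg_left h1 q0.le
      simp only
      linarith
  · intro x y hx hy hxy
    rw [pc_eq N (fun i => ρ (i + 1)) G H q c0 (f 0) (t 0) _ x y (fun i => ρpos _)]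
    set s := x + y with hs
    have hs0 : 0 ≤ s := by positivity
    have hv : |x - y| ≤ s := by rw [abs_le]; constructor <;> linarith
    have hsR : s ∈ Icc 0 R := ⟨hs0, hxy⟩
    -- the two errors
    suffices hmain : |α (ρ 0) - f 0 * ρ 0 + f 0 * s
        + q * ∑ i ∈ Finset.range N, G i * max (s - ρ (i + 1)) 0 - α s| ≤ 2 * e ∧
        s * |c0 + t 0 * s + ∑ i ∈ Finset.range N, H i * max (s - ρ (i + 1)) 0 - b s| ≤ 3 * e by
      obtain ⟨m1, m2⟩ := hmain
      have e1 : x ^ 2 - y ^ 2 = s * (x - y) := by rw [hs]; ring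
      set P := α (ρ 0) - f 0 * ρ 0 + f 0 * s
        + q * ∑ i ∈ Finset.range N, G i * max (s - ρ (i + 1)) 0 with hP
      set Q := c0 + t 0 * s + ∑ i ∈ Finset.range N, H i * max (s - ρ (i + 1)) 0 with hQ
      have e2 : α s + β s * (x ^ 2 - y ^ 2) - (P + (x - y) * Q)
          = -(P - α s) - (x - y) * (Q - b s) := by rw [e1]; simp only [hb]; ring
      rw [e2]
      calc |-(P - α s) - (x - y) * (Q - b s)| ≤ |-(P - α s)| + |(x - y) * (Q - b s)| := abs_sub _ _
        _ ≤ 2 * e + 3 * e := by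
          rw [abs_neg, abs_mul]
          exact add_le_add m1 ((mul_le_mul_of_nonneg_right hv (abs_nonneg _)).trans m2)
        _ = 5 * e := by ring
    have corr : |(q - 1) * ∑ i ∈ Finset.range N, G i * max (s - ρ (i + 1)) 0| ≤ e := by
      have hsum0 : 0 ≤ ∑ i ∈ Finset.range N, G i * max (s - ρ (i + 1)) 0 :=
        Finset.sum_nonneg fun i _ => mul_nonneg (G0 i) (le_max_right _ _)
      have hq1 : 0 ≤ q - 1 := by linarith
      rw [abs_of_nonneg (mul_nonneg hq1 hsum0)]
      have hsum : ∑ i ∈ Finset.range N, G i * max (s - ρ (i + 1)) 0 ≤ R * M := by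
        calc ∑ i ∈ Finset.range N, G i * max (s - ρ (i + 1)) 0
            ≤ ∑ i ∈ Finset.range N, G i * R := by
              refine Finset.sum_le_sum fun i _ => mul_le_mul_of_nonneg_left ?_ (G0 i)
              exact max_le (by linarith [ρpos (i + 1)]) hR.le
          _ = (f N - f 0) * R := by
              rw [← Finset.sum_mul]
              simp only [hG]
              rw [Finset.sum_range_sub]
          _ ≤ R * M := by nlinarith
      calc (q - 1) * ∑ i ∈ Finset.range N, G i * max (s - ρ (i + 1)) 0 ≤ (q - 1) * (R * M) :=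
            mul_le_mul_of_nonneg_left hsum hq1
        _ ≤ e := by linarith
    by_cases hsρ : s ≤ ρ 0
    · -- near zero
      rw [tele0 G ρ ρmono s N hsρ, tele0 H ρ ρmono s N hsρ]
      constructor
      · have a1 := hα (ρ 0) (ρmem 0 (by omega)) s hsR
          (by rw [abs_of_nonneg (by linarith)]; rw [ρ00] at hsρ ⊢; linarith)
        have a2 : 0 ≤ f 0 * (ρ 0 - s) := mul_nonneg f0 (by linarith)
        have a3 : f 0 * (ρ 0 - s) ≤ e := by
          calc f 0 * (ρ 0 - s) ≤ M * ρ 0 := by
                apply mul_le_mul f0M (by linarith) (by linarith) hM0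
            _ ≤ e := by rw [ρ00]; linarith
        rw [abs_le] at a1 ⊢
        constructor <;> nlinarith
      · have hz : c0 + t 0 * s = c0 * ((ρ 0 - s) / ρ 0) + b (ρ 0) * (s / ρ 0) := by
          have := (ρpos 0).ne'
          rw [hc0]; field_simp; ring
        have u0 : 0 ≤ (ρ 0 - s) / ρ 0 := div_nonneg (by linarith) (ρpos 0).le
        have u1 : (ρ 0 - s) / ρ 0 ≤ 1 := (div_le_one (ρpos 0)).2 (by linarith)
        have u2 : 0 ≤ s / ρ 0 := div_nonneg hs0 (ρpos 0).le
        have u3 : s / ρ 0 ≤ 1 := (div_le_one (ρpos 0)).2 hsρ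
        have b1 : s * |c0 * ((ρ 0 - s) / ρ 0)| ≤ e := by
          rw [abs_mul, abs_of_nonneg u0]
          calc s * (|c0| * ((ρ 0 - s) / ρ 0)) ≤ ρ 0 * (M * 1) := by
                apply mul_le_mul hsρ _ (by positivity) (ρpos 0).le
                exact mul_le_mul (c0f.trans f0M) u1 u0 hM0
            _ ≤ e := by rw [ρ00]; linarith
        have b2 : s * |b (ρ 0) * (s / ρ 0)| ≤ e := by
          rw [abs_mul, abs_of_nonneg u2]
          calc s * (|b (ρ 0)| * (s / ρ 0)) ≤ ρ 0 * (|b (ρ 0)| * 1) := by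
                apply mul_le_mul hsρ _ (by positivity) (ρpos 0).le
                exact mul_le_mul_of_nonneg_left u3 (abs_nonneg _)
            _ = |ρ 0 ^ 2 * β (ρ 0)| := by
                simp only [hb]
                rw [mul_one, ← abs_of_pos (ρpos 0), ← abs_mul, abs_of_pos (ρpos 0)]
                congr 1; ring
            _ ≤ e := k0 _ (ρpos 0).le (by rw [ρ00])
        have b3 : s * |b s| ≤ e := by
          calc s * |b s| = |s ^ 2 * β s| := by
                simp only [hb]
                nth_rw 1 [← abs_of_nonneg hs0]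
                rw [← abs_mul]
                congr 1; ring
            _ ≤ e := k0 _ hs0 (by rw [← ρ00]; exact hsρ)
        rw [add_zero, hz]
        have b4 : |c0 * ((ρ 0 - s) / ρ 0) + b (ρ 0) * (s / ρ 0) - b s|
            ≤ |c0 * ((ρ 0 - s) / ρ 0)| + |b (ρ 0) * (s / ρ 0)| + |b s| :=
          (abs_sub _ _).trans (by gcongr; exact abs_add_le _ _)
        calc _ ≤ s * (|c0 * ((ρ 0 - s) / ρ 0)| + |b (ρ 0) * (s / ρ 0)| + |b s|) :=
              mul_le_mul_of_nonneg_left b4 hs0
          _ ≤ 3 * e := by linarith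
    · -- inside the grid
      push Not at hsρ
      obtain ⟨j, hj, j1, j2⟩ := find ρ s N hsρ.le (by rw [ρN]; exact hxy)
      have hs' : 0 < s := (ρpos 0).trans hsρ
      have tα := tele' (fun i => α (ρ i)) ρ ρmono f hfe s j N hj j1 j2
      have tb := tele' (fun i => b (ρ i)) ρ ρmono t hte s j N hj j1 j2
      have gap : ρ (j + 1) - ρ j ≤ (q - 1) * R := by
        rw [ρs]
        have := ρR j (by omega)
        nlinarith
      have d1 : |ρ j - s| < δ := by rw [abs_of_nonpos (by linarith)]; linarith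
      have d2 : |ρ (j + 1) - s| < δ := by rw [abs_of_nonneg (by linarith)]; linarith
      have mj : ρ j ∈ Icc 0 R := ρmem j (by omega)
      have mj' : ρ (j + 1) ∈ Icc 0 R := ρmem (j + 1) (by omega)
      constructor
      · have c1 := comb (y := α s) (hfe j) (ρlt j) j1 j2 (hα _ mj _ hsR d1) (hα _ mj' _ hsR d2)
        have e3 : α (ρ 0) - f 0 * ρ 0 + f 0 * s
            + q * ∑ i ∈ Finset.range N, G i * max (s - ρ (i + 1)) 0 - α s
            = (α (ρ j) + f j * (s - ρ j) - α s)
              + (q - 1) * ∑ i ∈ Finset.range N, G i * max (s - ρ (i + 1)) 0 := by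
          rw [← tα]; ring
        rw [e3]
        calc _ ≤ |α (ρ j) + f j * (s - ρ j) - α s|
              + |(q - 1) * ∑ i ∈ Finset.range N, G i * max (s - ρ (i + 1)) 0| := abs_add_le _ _
          _ ≤ 2 * e := by linarith
      · have e4 : c0 + t 0 * s + ∑ i ∈ Finset.range N, H i * max (s - ρ (i + 1)) 0 - b s
            = b (ρ j) + t j * (s - ρ j) - b s := by
          rw [← tb]; simp only [hc0, hH]; ring
        rw [e4]
        have aux : ∀ r ∈ Icc 0 R, |r - s| < δ → |r - s| ≤ (q - 1) * r → 0 < r →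
            |b r - b s| ≤ 2 * e / s := by
          intro r hr h1 h2 hr0
          rw [le_div_iff₀ hs']
          have h3 : |b r - b s| * s = |(r ^ 2 * β r - s ^ 2 * β s) - (r - s) * b r| := by
            nth_rw 2 [← abs_of_pos hs']
            rw [← abs_mul]
            congr 1
            simp only [hb]; ring
          rw [h3]
          calc _ ≤ |r ^ 2 * β r - s ^ 2 * β s| + |(r - s) * b r| := abs_sub _ _
            _ ≤ e + e := by
              refine add_le_add (hk _ hr _ hsR h1) ?_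
              rw [abs_mul]
              calc |r - s| * |b r| ≤ (q - 1) * r * |b r| :=
                    mul_le_mul_of_nonneg_right h2 (abs_nonneg _)
                _ = (q - 1) * |r ^ 2 * β r| := by
                    rw [mul_assoc]
                    congr 1
                    nth_rw 1 [← abs_of_pos hr0]
                    rw [← abs_mul]
                    congr 1
                    simp only [hb]; ring
                _ ≤ (q - 1) * K := mul_le_mul_of_nonneg_left (hK _ hr) (by linarith)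
                _ ≤ e := q3
            _ = 2 * e := by ring
        have g1 : |ρ j - s| ≤ (q - 1) * ρ j := by
          rw [abs_of_nonpos (by linarith)]
          have := ρs j
          linarith
        have g2 : |ρ (j + 1) - s| ≤ (q - 1) * ρ (j + 1) := by
          rw [abs_of_nonneg (by linarith)]
          have h5 := ρs j
          have h6 := ρlt j
          nlinarith
        have c2 := comb (y := b s) (hte j) (ρlt j) j1 j2 (aux _ mj d1 g1 (ρpos _))
          (aux _ mj' d2 g2 (ρpos _))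
        calc s * |b (ρ j) + t j * (s - ρ j) - b s| ≤ s * (2 * e / s) :=
              mul_le_mul_of_nonneg_left c2 hs0
          _ = 2 * e := by field_simp
          _ ≤ 3 * e := by linarith

theorem main (h : S_CONT) : S_DISC := by
  intro α β hRC R ε hR hε
  have hw := h α β hRC
  -- continuity of α and of s^2 β s
  have cα : Continuous (fun s : ℝ => α |s|) := by
    have h1 : Continuous (fun s : ℝ => wf α β (((s / 2 : ℝ) : ℂ), ((s / 2 : ℝ) : ℂ))) :=
      hw.comp (by fun_prop)
    convert h1 using 2 with s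
    simp only [wf, Complex.norm_real, Real.norm_eq_abs]
    rw [sub_self, mul_zero, add_zero]
    congr 1
    rw [abs_div, abs_two]; ring
  have ck : Continuous (fun s : ℝ => s ^ 2 * β |s|) := by
    have h1 : Continuous (fun s : ℝ => wf α β ((s : ℂ), (0 : ℂ))) := hw.comp (by fun_prop)
    convert h1.sub cα using 2 with s
    simp only [wf, Complex.norm_real, Real.norm_eq_abs, norm_zero, add_zero, sq_abs,
      Pi.sub_apply]
    ring
  have hc : IsCompact (Icc (0 : ℝ) R) := isCompact_Icc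
  set e := ε / 5 with he
  have he0 : 0 < e := by positivity
  have uα := hc.uniformContinuousOn_of_continuous cα.continuousOn
  have uk := hc.uniformContinuousOn_of_continuous ck.continuousOn
  rw [Metric.uniformContinuousOn_iff] at uα uk
  obtain ⟨δ1, hδ1, hu1⟩ := uα e he0
  obtain ⟨δ2, hδ2, hu2⟩ := uk e he0
  obtain ⟨K, hK⟩ := hc.exists_bound_of_continuousOn ck.continuousOn
  set M := sl α R (2 * R) with hM
  have hM0 : 0 ≤ M := by
    -- α(R) ≤ α(2R) by convexity of t ↦ α|t|
    have hR2 : R < 2 * R := by linarith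
    have := (cvx hRC).slope_mono_adjacent (mem_univ (-R)) (mem_univ (2 * R))
      (by linarith : -R < R) hR2
    simp only [abs_neg, abs_of_pos hR, abs_of_pos (hR.trans hR2), sub_self, zero_div] at this
    exact this
  set δ := min δ1 δ2 with hδ
  have hδ0 : 0 < δ := lt_min hδ1 hδ2
  have hK0 : 0 ≤ K := (norm_nonneg _).trans (hK R ⟨hR.le, le_rfl⟩)
  -- the ratio
  obtain ⟨η, hη0, hη1, hη2, hη3⟩ : ∃ η : ℝ, 0 < η ∧ η * R < δ ∧ η * R * M ≤ e ∧ η * K ≤ e := by
    refine ⟨min (δ / (2 * R)) (min (e / (R * M + 1)) (e / (K + 1))), by positivity, ?_, ?_, ?_⟩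
    · calc _ ≤ δ / (2 * R) * R := by gcongr; exact min_le_left _ _
        _ = δ / 2 := by field_simp
        _ < δ := by linarith
    · calc _ = min (δ / (2 * R)) (min (e / (R * M + 1)) (e / (K + 1))) * (R * M) := by ring
        _ ≤ e / (R * M + 1) * (R * M) := by
            gcongr; exact (min_le_right _ _).trans (min_le_left _ _)
        _ ≤ e := by
            rw [div_mul_eq_mul_div, div_le_iff₀ (by positivity)]
            nlinarith [mul_nonneg hR.le hM0]
    · calc _ ≤ e / (K + 1) * K := by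
            gcongr; exact (min_le_right _ _).trans (min_le_right _ _)
        _ ≤ e := by
            rw [div_mul_eq_mul_div, div_le_iff₀ (by positivity)]
            nlinarith
  have hq : 1 < 1 + η := by linarith
  -- the number of points
  obtain ⟨N, hN⟩ : ∃ N : ℕ, R / (1 + η) ^ (N + 1) < min δ (e / (M + 1)) := by
    have hlim : Tendsto (fun n : ℕ => R / (1 + η) ^ n) atTop (𝓝 0) :=
      tendsto_const_nhds.div_atTop (tendsto_pow_atTop_atTop_of_one_lt hq)
    have hpos : 0 < min δ (e / (M + 1)) := by positivity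
    obtain ⟨n, hn⟩ := ((hlim.eventually (gt_mem_nhds hpos)).and (eventually_ge_atTop 1)).exists
    obtain ⟨hn1, hn2⟩ := hn
    obtain ⟨N, rfl⟩ : ∃ N, n = N + 1 := ⟨n - 1, by omega⟩
    exact ⟨N, hn1⟩
  have hres := grid (e := e) (δ := δ) (q := 1 + η) (M := M) (K := K)
    (ρ0 := R / (1 + η) ^ (N + 1)) hRC N hR he0 hq (by positivity) (by field_simp) hM hM0
    (fun s hs t ht hst => by
      have := hu1 s hs t ht (by rw [Real.dist_eq]; exact hst.trans_le (min_le_left _ _))
      rw [Real.dist_eq] at this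
      simp only [abs_of_nonneg hs.1, abs_of_nonneg ht.1] at this
      exact this.le)
    (fun s hs t ht hst => by
      have := hu2 s hs t ht (by rw [Real.dist_eq]; exact hst.trans_le (min_le_right _ _))
      rw [Real.dist_eq] at this
      simp only [abs_of_nonneg hs.1, abs_of_nonneg ht.1] at this
      exact this.le)
    (fun s hs => by
      have := hK s hs
      rw [Real.norm_eq_abs] at this
      simp only [abs_of_nonneg hs.1] at this
      exact this)
    (by rw [add_sub_cancel_left]; exact hη1) (by rw [add_sub_cancel_left]; exact hη2)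
    (by rw [add_sub_cancel_left]; exact hη3) (hN.trans_le (min_le_left _ _))
    (by
      have h1 := (hN.trans_le (min_le_right _ _)).le
      calc R / (1 + η) ^ (N + 1) * M ≤ e / (M + 1) * M := by gcongr
        _ ≤ e := by
            rw [div_mul_eq_mul_div, div_le_iff₀ (by positivity)]
            nlinarith)
  have h5 : 5 * e = ε := by rw [he]; ring
  rw [h5] at hres
  exact hres

end Pool.Agent.W809.MQ.Disc
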